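import Pool.Agent.H7.JB.Stmts

/-! Row NDG of the board jb14 (helper21): adapted from Pool/Agent/H2/GX/NDMX.lean of helper2 -/

set_option autoImplicit false

open Finset

namespace Pool.JB7

open Pool.Agent.H23.KT Pool.Agent.H46.KW Pool.KQ Pool.GT7 Pool.GU7 Pool.HZ7

/-- The numerical part. `A = a ^ b`, `f` is `ph p r`, `X = n_z a ^ (b - 1)`. -/
theorem NDG_num (p r : ℕ) (h : PrG p r) (ε μ f A N S1 S2 T : ℝ) (hA : 0 < A)
    (hε : ε = e1 p / (1024 * ((p : ℝ) + 3) ^ 3)) (hf0 : 0 < f) (hf1 : f < 1)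
    (h2 : N ≤ (1 + ε) * A) (h3 : μ * A - ε * A ≤ S1)
    (h5 : S2 ≤ μ * A + ((p : ℝ) + 1) / ((p : ℝ) + 2) * (μ ^ 2 * A) + ε * A)
    (h7 : μ ≤ (p : ℝ) + 2 - e1 p / 8)
    (h8 : (p : ℝ) - 1 / 12 ≤ μ)
    (hs : ((p : ℝ) + 2 + ((p : ℝ) + 1 - r)) * S1 - ((p : ℝ) + 2) * ((p : ℝ) + 1 - r) * N - S2 ≤
      2 * r * (((p : ℝ) + 2) * (1 - f) * N + f * ((p : ℝ) + 2) * T - S1)) :
    μ * A ≤ ((p : ℝ) + 2) * (1 - f) * A + ((p : ℝ) + 2) * f * T - s2 p * A := by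
  have hp0 : (0 : ℝ) ≤ p := Nat.cast_nonneg p
  have he : 0 < e1 p := by unfold e1; positivity
  have hg : p + 3 < 3 * r := h.gr
  have hrp : r ≤ p := h.rp
  have hp2 : 2 ≤ p := by omega
  have hr2 : 2 ≤ r := by omega
  have hpR : (2 : ℝ) ≤ p := by exact_mod_cast hp2
  have hrR : (2 : ℝ) ≤ r := by exact_mod_cast hr2
  have hrpR : (r : ℝ) ≤ p := by exact_mod_cast hrp
  set b : ℝ := (p : ℝ) + 1 - r with hb
  have hb1 : 1 ≤ b := by linarith
  have hbp : b ≤ (p : ℝ) - 1 := by linarith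
  have hε0 : 0 < ε := by rw [hε]; positivity
  have hε3 : ε * (1024 * ((p : ℝ) + 3) ^ 3) = e1 p := by
    rw [hε]; field_simp
  -- the second factor
  have hf : 7 / 16 ≤ μ * (((p : ℝ) + 1) / ((p : ℝ) + 2)) - b := by
    have h9 : ((p : ℝ) - 1 / 12) * (((p : ℝ) + 1) / ((p : ℝ) + 2)) ≤
        μ * (((p : ℝ) + 1) / ((p : ℝ) + 2)) := mul_le_mul_of_nonneg_right h8 (by positivity)
    have h10 : ((p : ℝ) - 1 / 12) * (((p : ℝ) + 1) / ((p : ℝ) + 2)) =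
        ((p : ℝ) + 1) - 25 / 12 * (((p : ℝ) + 1) / ((p : ℝ) + 2)) := by
      field_simp
      ring
    have h11 : 7 / 16 + 25 / 12 * (((p : ℝ) + 1) / ((p : ℝ) + 2)) ≤ r := by
      rcases Nat.lt_or_ge r 3 with h3' | h3'
      · have : p = 2 := by omega
        have hr' : r = 2 := by omega
        subst this
        subst hr'
        norm_num
      · have h12 : ((p : ℝ) + 1) / ((p : ℝ) + 2) ≤ 1 := by
          rw [div_le_one (by positivity)]; linarith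
        have h13 : (3 : ℝ) ≤ r := by exact_mod_cast h3'
        linarith
    linarith
  have hprod : e1 p / 8 * (7 / 16) ≤
      ((p : ℝ) + 2 - μ) * (μ * (((p : ℝ) + 1) / ((p : ℝ) + 2)) - b) :=
    mul_le_mul (by linarith) hf (by norm_num) (by linarith)
  have hexp : ((p : ℝ) + 2 - μ) * (μ * (((p : ℝ) + 1) / ((p : ℝ) + 2)) - b) =
      ((p : ℝ) + 1 + b) * μ - ((p : ℝ) + 2) * b -
        ((p : ℝ) + 1) / ((p : ℝ) + 2) * μ ^ 2 := by
    field_simp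
    ring
  rw [hexp] at hprod
  have hK : ε * (2 * ((p : ℝ) + 3) ^ 2) ≤ e1 p / 256 := by
    have h14 : 2 * ((p : ℝ) + 3) ^ 2 * 256 ≤ 1024 * ((p : ℝ) + 3) ^ 3 := by
      have : (0 : ℝ) ≤ ((p : ℝ) + 3) ^ 2 := by positivity
      nlinarith
    have h15 : ε * (2 * ((p : ℝ) + 3) ^ 2 * 256) ≤ ε * (1024 * ((p : ℝ) + 3) ^ 3) :=
      mul_le_mul_of_nonneg_left h14 hε0.le
    rw [hε3] at h15
    linarith
  -- the lower bound of the left side
  have hl : (3 * e1 p / 64) * A ≤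
      ((p : ℝ) + 2 + b) * S1 - ((p : ℝ) + 2) * b * N - S2 := by
    have q1 : ((p : ℝ) + 2 + b) * (μ * A - ε * A) ≤ ((p : ℝ) + 2 + b) * S1 :=
      mul_le_mul_of_nonneg_left h3 (by linarith)
    have q2 : ((p : ℝ) + 2) * b * N ≤ ((p : ℝ) + 2) * b * ((1 + ε) * A) :=
      mul_le_mul_of_nonneg_left h2 (by positivity)
    have q3 : e1 p / 8 * (7 / 16) * A ≤
        (((p : ℝ) + 1 + b) * μ - ((p : ℝ) + 2) * b -
        ((p : ℝ) + 1) / ((p : ℝ) + 2) * μ ^ 2) * A := mul_le_mul_of_nonneg_right hprod hA.le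
    have q4 : ε * A * ((p : ℝ) + 2 + b + ((p : ℝ) + 2) * b + 1) ≤
        ε * A * (2 * ((p : ℝ) + 3) ^ 2) := by
      apply mul_le_mul_of_nonneg_left _ (by positivity)
      nlinarith
    have q5 : ε * A * (2 * ((p : ℝ) + 3) ^ 2) ≤ e1 p / 256 * A := by
      have := mul_le_mul_of_nonneg_right hK hA.le
      linarith
    nlinarith [mul_pos he hA]
  set Sl : ℝ := ((p : ℝ) + 2) * (1 - f) * N + f * ((p : ℝ) + 2) * T - S1 with hSl
  have hl2 : (3 * e1 p / 64) * A ≤ 2 * r * Sl := hl.trans hs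
  have hSl0 : 0 < Sl := by
    have h16 : 0 < 2 * (r : ℝ) * Sl := lt_of_lt_of_le (by positivity) hl2
    exact (pos_iff_pos_of_mul_pos h16).mp (by positivity)
  have hl3 : (3 * e1 p / 64) * A ≤ 2 * ((p : ℝ) + 3) * Sl := by
    refine hl2.trans (mul_le_mul_of_nonneg_right (by linarith) hSl0.le)
  have hl4 : 3 * e1 p / (128 * ((p : ℝ) + 3)) * A ≤ Sl := by
    rw [div_mul_eq_mul_div, div_le_iff₀ (by positivity)]
    nlinarith
  have hN : ((p : ℝ) + 2) * (1 - f) * N ≤ ((p : ℝ) + 2) * (1 - f) * ((1 + ε) * A) :=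
    mul_le_mul_of_nonneg_left h2 (mul_nonneg (by positivity) (by linarith))
  have hs2 : s2 p = e1 p / (256 * ((p : ℝ) + 3) ^ 2) := rfl
  have hfin : ε * (((p : ℝ) + 2) * (1 - f) + 1) + s2 p ≤ 3 * e1 p / (128 * ((p : ℝ) + 3)) := by
    have g1 : ε * (((p : ℝ) + 2) * (1 - f) + 1) ≤ ε * ((p : ℝ) + 3) := by
      apply mul_le_mul_of_nonneg_left _ hε0.le
      nlinarith
    have g2 : ε * ((p : ℝ) + 3) = e1 p / (1024 * ((p : ℝ) + 3) ^ 2) := by
      rw [hε]; field_simp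
    have g3 : e1 p / (1024 * ((p : ℝ) + 3) ^ 2) ≤ e1 p / (128 * ((p : ℝ) + 3)) := by
      apply div_le_div_of_nonneg_left he.le (by positivity)
      nlinarith
    have g4 : e1 p / (256 * ((p : ℝ) + 3) ^ 2) ≤ e1 p / (128 * ((p : ℝ) + 3)) := by
      apply div_le_div_of_nonneg_left he.le (by positivity)
      nlinarith
    have g5 : 3 * e1 p / (128 * ((p : ℝ) + 3)) = 3 * (e1 p / (128 * ((p : ℝ) + 3))) := by ring
    have g6 : 0 < e1 p / (128 * ((p : ℝ) + 3)) := by positivity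
    rw [hs2, g5]
    linarith
  have hfin2 := mul_le_mul_of_nonneg_right hfin hA.le
  nlinarith

theorem ndg_thm (hG : GCGStmt) (hP : PRFStmt) (hC : CCK0Stmt) (_hO : GCO0Stmt) : NDGStmt := by
  intro p r h
  obtain ⟨hw, f0, f1, -, g1, -⟩ := hG p r h
  have h0 : Pr0 p 0 r := ⟨Nat.zero_le _, hw.r1, hw.rp⟩
  have hp0 : (0 : ℝ) ≤ p := Nat.cast_nonneg p
  have he : 0 < e1 p := by unfold e1; positivity
  set ε : ℝ := e1 p / (1024 * ((p : ℝ) + 3) ^ 3) with hε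
  have hε0 : 0 < ε := by positivity
  obtain ⟨e₀, he₀, hP1⟩ := hP p ε hε0
  refine ⟨min e₀ (e1 p / 2), lt_min he₀ (by positivity), fun C => ?_⟩
  obtain ⟨a₀, hP2⟩ := hP1 C
  refine ⟨max a₀ 1, fun a ha V _ G e W P U hStr he0 hee hCB z hz hn => ?_⟩
  have ha0 : a₀ ≤ a := le_trans (le_max_left _ _) ha
  have ha1 : 1 ≤ a := le_trans (le_max_right _ _) ha
  have haR : (0 : ℝ) < a := by exact_mod_cast ha1
  obtain ⟨-, p2, p3, -, p5, -, p7⟩ := hP2 a ha0 G e W P U hStr he0 (hee.trans (min_le_left _ _)) hCB z hz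
  obtain ⟨c1, -, -, -⟩ := hC G p 0 r a e C W P U h0 hStr he0 (hee.trans (min_le_right _ _)) hCB z hz
  set X := un P with hX
  set μ : ℝ := ((nb G X z).card : ℝ) / a with hμ
  have hμn : ((nb G X z).card : ℝ) = μ * a := by rw [hμ]; field_simp
  have hA : (0 : ℝ) < (a : ℝ) ^ (p + 3) := by positivity
  have hs : ((p : ℝ) + 2 + ((p : ℝ) + 1 - r)) * (∑ L ∈ clq G X (p + 3), ((nb G L z).card : ℝ)) -
      ((p : ℝ) + 2) * ((p : ℝ) + 1 - r) * (kc G X (p + 3) : ℝ) -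
      (∑ L ∈ clq G X (p + 3), ((nb G L z).card : ℝ) ^ 2) ≤
      2 * r * (((p : ℝ) + 2) * (1 - ph p r) * (kc G X (p + 3) : ℝ) +
        ph p r * ((p : ℝ) + 2) * TZ G p r X z -
        ∑ L ∈ clq G X (p + 3), ((nb G L z).card : ℝ)) := by
    have hk : (kc G X (p + 3) : ℝ) = ∑ L ∈ clq G X (p + 3), (1 : ℝ) := by
      rw [sum_const, nsmul_eq_mul, mul_one]
      rfl
    have s1 := sum_le_sum fun L hL => g1 (nb G L z).card (c1 L hL)
    have s2' : ∑ L ∈ clq G X (p + 3), (((p : ℝ) + 2 - (nb G L z).card) *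
        ((nb G L z).card + r - ((p : ℝ) + 1))) =
        ((p : ℝ) + 2 + ((p : ℝ) + 1 - r)) * (∑ L ∈ clq G X (p + 3), ((nb G L z).card : ℝ)) -
      ((p : ℝ) + 2) * ((p : ℝ) + 1 - r) * (kc G X (p + 3) : ℝ) -
      (∑ L ∈ clq G X (p + 3), ((nb G L z).card : ℝ) ^ 2) := by
      rw [hk, mul_sum, mul_sum, ← sum_sub_distrib, ← sum_sub_distrib]
      exact sum_congr rfl fun L _ => by ring
    have s3 : ∑ L ∈ clq G X (p + 3), (2 * (r : ℝ) * (((p : ℝ) + 2) * (1 - ph p r) +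
        ph p r * ((p : ℝ) + 2) * ww p r (nb G L z).card - (nb G L z).card)) =
        2 * r * (((p : ℝ) + 2) * (1 - ph p r) * (kc G X (p + 3) : ℝ) +
        ph p r * ((p : ℝ) + 2) * TZ G p r X z -
        ∑ L ∈ clq G X (p + 3), ((nb G L z).card : ℝ)) := by
      unfold TZ
      rw [hk, mul_sum, mul_sum, ← sum_add_distrib, ← sum_sub_distrib, mul_sum]
      exact sum_congr rfl fun L _ => by ring
    rw [← s2', ← s3]
    exact s1
  have pw1 : (a : ℝ) ^ (p + 3) = (a : ℝ) ^ (p + 2) * a := by rw [← pow_succ]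
  have pw2 : (a : ℝ) ^ (p + 3) = (a : ℝ) ^ (p + 1) * a ^ 2 := by rw [← pow_add]
  have key := NDG_num p r h ε μ (ph p r) ((a : ℝ) ^ (p + 3)) (kc G X (p + 3)) _ _ (TZ G p r X z)
    hA hε f0 f1 p2
    (by
      refine le_trans (le_of_eq ?_) p3
      rw [hμn, pw1]; ring)
    (by
      refine p5.trans (le_of_eq ?_)
      rw [hμn]
      have h1 : μ * a * (a : ℝ) ^ (p + 2) = μ * (a : ℝ) ^ (p + 3) := by rw [pw1]; ring
      rw [h1]
      have h2 : ((p : ℝ) + 1) / ((p : ℝ) + 2) * (μ * a) ^ 2 * (a : ℝ) ^ (p + 1) =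
          ((p : ℝ) + 1) / ((p : ℝ) + 2) * (μ ^ 2 * (a : ℝ) ^ (p + 3)) := by rw [pw2]; ring
      rw [h2])
    (by
      rw [hμ, div_le_iff₀ haR]; exact p7)
    (by
      rw [hμ, le_div_iff₀ haR]; exact hn)
    hs
  unfold ndz
  apply max_eq_left
  have hMz : Mz p r a * TZ G p r X z = a * ((((p : ℝ) + 2) * ph p r * TZ G p r X z) /
      (a : ℝ) ^ (p + 3)) := by
    unfold Mz
    ring
  have key2 : μ ≤ ((p : ℝ) + 2) * (1 - ph p r) + (((p : ℝ) + 2) * ph p r * TZ G p r X z) /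
      (a : ℝ) ^ (p + 3) - s2 p := by
    have h1 : μ = μ * (a : ℝ) ^ (p + 3) / (a : ℝ) ^ (p + 3) := by field_simp
    have h2 : ((p : ℝ) + 2) * (1 - ph p r) + (((p : ℝ) + 2) * ph p r * TZ G p r X z) /
      (a : ℝ) ^ (p + 3) - s2 p = (((p : ℝ) + 2) * (1 - ph p r) * (a : ℝ) ^ (p + 3) +
        ((p : ℝ) + 2) * ph p r * TZ G p r X z - s2 p * (a : ℝ) ^ (p + 3)) / (a : ℝ) ^ (p + 3) := by
      field_simp
    rw [h1, h2]
    exact div_le_div_of_nonneg_right key hA.le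
  rw [hMz, hμn]
  have := mul_le_mul_of_nonneg_right key2 haR.le
  linarith

end Pool.JB7
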